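import Pool.Agent.U409.OA.Stm3

set_option autoImplicit false

/-! Project OA, package DREC: the recursion of the determinants. -/

namespace Pool.Agent.U402.OA

open Finset Pool.Agent.U409.OA

lemma geo3 (a : ℕ) (w : ℂ) : ∑ k ∈ range (a + 3), w ^ (2 * k) =
    (1 + w ^ 2 + w ^ 4) + w ^ 6 * ∑ k ∈ range a, w ^ (2 * k) := by
  induction a with
  | zero => simp [Finset.sum_range_succ]
  | succ a ih =>
    rw [show a + 1 + 3 = (a + 3) + 1 by ring, Finset.sum_range_succ, ih, Finset.sum_range_succ]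
    ring

lemma rec_gl (m l N : ℕ) (h : l + 4 + N = 3 * m) (w C : ℂ) :
    gl (m + 1) (l + 6) w - C * gl (m + 1) (l + 3) w + gl (m + 1) l w =
      (w ^ 6 + 1 - C * w ^ 3) * gl m (l + 3) w := by
  unfold gl
  rw [show 3 * (m + 1) - 1 - (l + 6) = N by omega, show 3 * (m + 1) - 1 - (l + 3) = N + 3 by omega,
    show 3 * (m + 1) - 1 - l = N + 6 by omega, show 3 * m - 1 - (l + 3) = N by omega,
    show l + 6 = (l + 3) + 3 by ring, geo3 (l + 3), geo3 l]
  ring

lemma rec_gl1 (m N : ℕ) (h : 2 + N = 3 * m) (w C : ℂ) :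
    gl (m + 1) 4 w - C * gl (m + 1) 1 w - gl (m + 1) 2 w =
      (w ^ 6 + 1 - C * w ^ 3) * gl m 1 w := by
  unfold gl
  rw [show 3 * (m + 1) - 1 - 4 = N by omega, show 3 * (m + 1) - 1 - 1 = N + 3 by omega,
    show 3 * (m + 1) - 1 - 2 = N + 2 by omega, show 3 * m - 1 - 1 = N by omega]
  simp only [Finset.sum_range_succ, Finset.sum_range_zero]
  ring

lemma rec_gl2 (m N : ℕ) (h : 3 + N = 3 * m) (w C : ℂ) :
    gl (m + 1) 5 w - C * gl (m + 1) 2 w - gl (m + 1) 1 w =
      (w ^ 6 + 1 - C * w ^ 3) * gl m 2 w := by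
  unfold gl
  rw [show 3 * (m + 1) - 1 - 5 = N by omega, show 3 * (m + 1) - 1 - 2 = N + 3 by omega,
    show 3 * (m + 1) - 1 - 1 = N + 4 by omega, show 3 * m - 1 - 2 = N by omega]
  simp only [Finset.sum_range_succ, Finset.sum_range_zero]
  ring

/-- the column operations -/
def Uc (C : ℂ) (k j : ℕ) : ℂ :=
  (if k = j then 1 else 0) - (if k + 2 = j then C else 0) + (if k + 4 = j then 1 else 0) -
    (if k = 1 ∧ j = 2 then 1 else 0) - (if k = 0 ∧ j = 3 then 1 else 0)

lemma pick (n a : ℕ) (h : a < n) (g : ℕ → ℂ) (c : ℂ) :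
    ∑ k ∈ range n, g k * (if k = a then c else 0) = g a * c := by
  rw [Finset.sum_eq_single a]
  · rw [if_pos rfl]
  · intro b _ hb
    rw [if_neg hb, mul_zero]
  · intro h2
    exact absurd (mem_range.mpr h) h2

lemma sumU0 (n : ℕ) (h : 0 < n) (g : ℕ → ℂ) (C : ℂ) :
    ∑ k ∈ range n, g k * Uc C k 0 = g 0 := by
  have e : ∀ k ∈ range n, g k * Uc C k 0 = g k * (if k = 0 then 1 else 0) := by
    intro k _
    simp only [Uc]
    split_ifs <;> first | (exfalso; omega) | (exfalso; tauto) | ring1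
  rw [Finset.sum_congr rfl e, pick n 0 h, mul_one]

lemma sumU1 (n : ℕ) (h : 1 < n) (g : ℕ → ℂ) (C : ℂ) :
    ∑ k ∈ range n, g k * Uc C k 1 = g 1 := by
  have e : ∀ k ∈ range n, g k * Uc C k 1 = g k * (if k = 1 then 1 else 0) := by
    intro k _
    simp only [Uc]
    split_ifs <;> first | (exfalso; omega) | (exfalso; tauto) | ring1
  rw [Finset.sum_congr rfl e, pick n 1 h, mul_one]

lemma sumU2 (n : ℕ) (h : 2 < n) (g : ℕ → ℂ) (C : ℂ) :
    ∑ k ∈ range n, g k * Uc C k 2 = g 2 - C * g 0 - g 1 := by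
  have e : ∀ k ∈ range n, g k * Uc C k 2 = g k * (if k = 2 then 1 else 0) +
      g k * (if k = 0 then -C else 0) + g k * (if k = 1 then -1 else 0) := by
    intro k _
    simp only [Uc]
    split_ifs <;> first | (exfalso; omega) | (exfalso; tauto) | ring1
  rw [Finset.sum_congr rfl e, Finset.sum_add_distrib, Finset.sum_add_distrib, pick n 2 h,
    pick n 0 (by omega), pick n 1 (by omega)]
  ring

lemma sumU3 (n : ℕ) (h : 3 < n) (g : ℕ → ℂ) (C : ℂ) :
    ∑ k ∈ range n, g k * Uc C k 3 = g 3 - C * g 1 - g 0 := by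
  have e : ∀ k ∈ range n, g k * Uc C k 3 = g k * (if k = 3 then 1 else 0) +
      g k * (if k = 1 then -C else 0) + g k * (if k = 0 then -1 else 0) := by
    intro k _
    simp only [Uc]
    split_ifs <;> first | (exfalso; omega) | (exfalso; tauto) | ring1
  rw [Finset.sum_congr rfl e, Finset.sum_add_distrib, Finset.sum_add_distrib, pick n 3 h,
    pick n 1 (by omega), pick n 0 (by omega)]
  ring

lemma sumU4 (n i : ℕ) (h : i + 4 < n) (g : ℕ → ℂ) (C : ℂ) :
    ∑ k ∈ range n, g k * Uc C k (i + 4) = g (i + 4) - C * g (i + 2) + g i := by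
  have e : ∀ k ∈ range n, g k * Uc C k (i + 4) = g k * (if k = i + 4 then 1 else 0) +
      g k * (if k = i + 2 then -C else 0) + g k * (if k = i then 1 else 0) := by
    intro k _
    simp only [Uc]
    split_ifs <;> first | (exfalso; omega) | (exfalso; tauto) | ring1
  rw [Finset.sum_congr rfl e, Finset.sum_add_distrib, Finset.sum_add_distrib, pick n (i + 4) h,
    pick n (i + 2) (by omega), pick n i (by omega)]
  ring

lemma ex_add (j : ℕ) : ex (j + 2) = ex j + 3 := by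
  unfold ex; omega

lemma ex_le (j m : ℕ) (h : j < 2 * m) : ex j + 1 ≤ 3 * m := by
  unfold ex; omega

/-- the columns after the operations -/
lemma colU (m j : ℕ) (hj : j < 2 * m) (w C : ℂ) :
    ∑ k ∈ range (2 * m + 2), gl (m + 1) (ex k) w * Uc C k (j + 2) =
      (w ^ 6 + 1 - C * w ^ 3) * gl m (ex j) w := by
  rcases j with _ | _ | i
  · rw [show 0 + 2 = 2 from rfl, sumU2 (2 * m + 2) (by omega) (fun k => gl (m + 1) (ex k) w)]
    exact rec_gl1 m (3 * m - 2) (by omega) w C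
  · rw [show 0 + 1 + 2 = 3 from rfl, sumU3 (2 * m + 2) (by omega) (fun k => gl (m + 1) (ex k) w)]
    exact rec_gl2 m (3 * m - 3) (by omega) w C
  · rw [show i + 1 + 1 + 2 = i + 4 from rfl,
      sumU4 (2 * m + 2) i (by omega) (fun k => gl (m + 1) (ex k) w)]
    have h1 : ex (i + 2) = ex i + 3 := ex_add i
    have h2 : ex (i + 4) = ex i + 6 := by
      rw [show i + 4 = (i + 2) + 2 from rfl, ex_add, ex_add]
    have h3 : ex i + 4 ≤ 3 * m := by
      have := ex_le (i + 2) m hj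
      rw [h1] at this
      omega
    show gl (m + 1) (ex (i + 4)) w - C * gl (m + 1) (ex (i + 2)) w + gl (m + 1) (ex i) w = _
    rw [show i + 1 + 1 = i + 2 from rfl, h1, h2]
    exact rec_gl m (ex i) (3 * m - (ex i + 4)) (by omega) w C

/-- the matrix of the column operations -/
noncomputable def UM (n : ℕ) (C : ℂ) : Matrix (Fin n) (Fin n) ℂ := Matrix.of fun k j => Uc C k j

lemma UM_det (n : ℕ) (C : ℂ) : (UM n C).det = 1 := by
  rw [Matrix.det_of_upperTriangular]
  · refine Finset.prod_eq_one fun i _ => ?_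
    simp only [UM, Matrix.of_apply, Uc]
    split_ifs <;> first | (exfalso; omega) | (exfalso; tauto) | ring1
  · intro k j hkj
    have h : (j : ℕ) < k := hkj
    simp only [UM, Matrix.of_apply, Uc]
    split_ifs <;> first | (exfalso; omega) | (exfalso; tauto) | ring1

/-- splitting off two indices -/
def ee (m : ℕ) : Fin 2 ⊕ Fin (2 * m) ≃ Fin (2 * m + 2) :=
  finSumFinEquiv.trans (finCongr (by omega))

lemma ee_inl (m : ℕ) (i : Fin 2) : ((ee m (Sum.inl i) : Fin (2 * m + 2)) : ℕ) = i := by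
  simp [ee]

lemma ee_inr (m : ℕ) (i : Fin (2 * m)) : ((ee m (Sum.inr i) : Fin (2 * m + 2)) : ℕ) = i + 2 := by
  simp [ee, add_comm]

theorem t_DREC : S_DREC := by
  intro z hz m x y u hxy
  have hz6 : z ^ 6 = 1 := by
    have h3 : z ^ 3 = -1 := by
      calc z ^ 3 = z * z ^ 2 := by ring
        _ = z * (z - 1) := by rw [hz]
        _ = z ^ 2 - z := by ring
        _ = -1 := by rw [hz]; ring
    calc z ^ 6 = (z ^ 3) ^ 2 := by ring
      _ = 1 := by rw [h3]; ring
  have hxy3 : x ^ 3 * y ^ 3 = 1 := by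
    calc x ^ 3 * y ^ 3 = (x * y) ^ 3 := by ring
      _ = z ^ 6 := by rw [hxy]; ring
      _ = 1 := hz6
  obtain ⟨W, hW⟩ : ∃ W : Fin (2 * m + 2) → ℂ,
    W = (Fin.cons x (Fin.cons y u : Fin (2 * m + 1) → ℂ) : Fin (2 * m + 2) → ℂ) := ⟨_, rfl⟩
  have hWx : W (ee m (Sum.inl 0)) = x := by
    have : ee m (Sum.inl 0) = 0 := Fin.ext (by rw [ee_inl]; rfl)
    rw [this, hW, Fin.cons_zero]
  have hWy : W (ee m (Sum.inl 1)) = y := by
    have : ee m (Sum.inl 1) = Fin.succ 0 := Fin.ext (by rw [ee_inl]; rfl)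
    rw [this, hW, Fin.cons_succ, Fin.cons_zero]
  have hWu : ∀ i, W (ee m (Sum.inr i)) = u i := by
    intro i
    have : ee m (Sum.inr i) = Fin.succ (Fin.succ i) := Fin.ext (by rw [ee_inr]; simp)
    rw [this, hW, Fin.cons_succ, Fin.cons_succ]
  rw [← hW]
  set C : ℂ := x ^ 3 + y ^ 3 with hC
  have hfac : ∀ w : ℂ, w ^ 6 + 1 - C * w ^ 3 = (w ^ 3 - x ^ 3) * (w ^ 3 - y ^ 3) := by
    intro w
    rw [hC]
    linear_combination -hxy3
  set A : Matrix (Fin (2 * m + 2)) (Fin (2 * m + 2)) ℂ :=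
    Matrix.of fun i j => gl (m + 1) (ex j) (W i) with hA
  set B := A * UM (2 * m + 2) C with hB
  have hdet : D (m + 1) W = B.det := by
    rw [hB, Matrix.det_mul, UM_det, mul_one]
    rfl
  have hBsum : ∀ i j, B i j =
      ∑ k ∈ range (2 * m + 2), gl (m + 1) (ex k) (W i) * Uc C k j := by
    intro i j
    rw [hB, Matrix.mul_apply]
    simp only [hA, UM, Matrix.of_apply]
    exact Fin.sum_univ_eq_sum_range (fun k => gl (m + 1) (ex k) (W i) * Uc C k j) (2 * m + 2)
  have hB2 : ∀ i (j : Fin (2 * m)), B i (ee m (Sum.inr j)) =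
      (W i ^ 3 - x ^ 3) * (W i ^ 3 - y ^ 3) * gl m (ex j) (W i) := by
    intro i j
    rw [hBsum, ee_inr, colU m j j.2, hfac]
  have hB0 : ∀ i, B i (ee m (Sum.inl 0)) = gl (m + 1) 1 (W i) := by
    intro i
    rw [hBsum, ee_inl]
    exact sumU0 (2 * m + 2) (by omega) (fun k => gl (m + 1) (ex k) (W i)) C
  have hB1 : ∀ i, B i (ee m (Sum.inl 1)) = gl (m + 1) 2 (W i) := by
    intro i
    rw [hBsum, ee_inl]
    exact sumU1 (2 * m + 2) (by omega) (fun k => gl (m + 1) (ex k) (W i)) C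
  -- the blocks
  have h12 : (B.submatrix (ee m) (ee m)).toBlocks₁₂ = 0 := by
    ext i j
    simp only [Matrix.toBlocks₁₂, Matrix.of_apply, Matrix.submatrix_apply, Matrix.zero_apply]
    rw [hB2]
    fin_cases i
    · show (W (ee m (Sum.inl 0)) ^ 3 - x ^ 3) * (W (ee m (Sum.inl 0)) ^ 3 - y ^ 3) *
        gl m (ex j) (W (ee m (Sum.inl 0))) = 0
      rw [hWx, sub_self]; ring
    · show (W (ee m (Sum.inl 1)) ^ 3 - x ^ 3) * (W (ee m (Sum.inl 1)) ^ 3 - y ^ 3) *
        gl m (ex j) (W (ee m (Sum.inl 1))) = 0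
      rw [hWy, sub_self]; ring
  have h22 : (B.submatrix (ee m) (ee m)).toBlocks₂₂ = Matrix.of fun i j : Fin (2 * m) =>
      ((u i ^ 3 - x ^ 3) * (u i ^ 3 - y ^ 3)) *
        (Matrix.of fun i j : Fin (2 * m) => gl m (ex j) (u i)) i j := by
    ext i j
    simp only [Matrix.toBlocks₂₂, Matrix.of_apply, Matrix.submatrix_apply]
    rw [hB2, hWu]
  have h11 : (B.submatrix (ee m) (ee m)).toBlocks₁₁.det = -((x - y) * (x * y - 1)) := by
    rw [Matrix.det_fin_two]
    simp only [Matrix.toBlocks₁₁, Matrix.of_apply, Matrix.submatrix_apply]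
    rw [hB0, hB0, hB1, hB1, hWx, hWy]
    unfold gl
    rw [show 3 * (m + 1) - 1 - 1 = 3 * m + 1 by omega, show 3 * (m + 1) - 1 - 2 = 3 * m by omega]
    simp only [Finset.sum_range_succ, Finset.sum_range_zero]
    have hp : x ^ (3 * m) * y ^ (3 * m) = 1 := by
      rw [pow_mul, pow_mul, ← mul_pow, hxy3, one_pow]
    linear_combination (-(x - y) * (x * y - 1)) * hp
  rw [hdet, ← Matrix.det_submatrix_equiv_self (ee m) B,
    ← Matrix.fromBlocks_toBlocks (B.submatrix (ee m) (ee m)), h12, Matrix.det_fromBlocks_zero₁₂,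
    h11, h22, Matrix.det_mul_column]
  unfold D
  ring

end Pool.Agent.U402.OA
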